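import Mathlib.Computability.DFA
import Mathlib.ModelTheory.Basic
import Mathlib.Data.PNat.Basic
import Mathlib.Data.Fintype.Pigeonhole
import Mathlib.Tactic

set_option autoImplicit false

/-! The structure `⟨ℕ_{>0}; +, x·2^y, ≤, 1⟩` is not automatic. -/

namespace Pool.Agent.Results.MP_34afd1_lc.NotAutomatic

open FirstOrder

/-- The convolution of the words `w 0, …, w (k-1)`: the `i`-th letter is the tuple of the `i`-th
letters, where `none` is the padding symbol; its length is the maximum of the lengths. -/
def conv {A : Type} {k : ℕ} (w : Fin k → List A) : List (Fin k → Option A) :=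
  (List.range (Finset.univ.sup fun j => (w j).length)).map fun i j => (w j)[i]?

/-- Automatic relations on words. -/
def AutoRel {A : Type} {k : ℕ} (R : Set (Fin k → List A)) : Prop :=
  Language.IsRegular (conv '' R : Language (Fin k → Option A))

/-- A structure `M` of a first-order language is automatic: it is isomorphic to a structure whose
domain is a regular language `D` over a finite alphabet `A`, and in which all graphs of functions
(and constants) and all relations are automatic. -/
def IsAutomatic (L : FirstOrder.Language.{0, 0}) (M : Type) [L.Structure M] : Prop :=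
  ∃ (A : Type) (_ : Finite A) (D : _root_.Language A) (_ : D.IsRegular)
    (_ : L.Structure {w // w ∈ D}),
    Nonempty (M ≃[L] {w // w ∈ D}) ∧
    (∀ (n : ℕ) (f : L.Functions n), AutoRel {w : Fin (n + 1) → List A |
      ∃ v : Fin n → {w // w ∈ D}, (∀ i : Fin n, w i.castSucc = (v i).1) ∧
        w (Fin.last n) = (Language.Structure.funMap f v).1}) ∧
    (∀ (n : ℕ) (r : L.Relations n), AutoRel {w : Fin n → List A |
      ∃ v : Fin n → {w // w ∈ D}, (∀ i, w i = (v i).1) ∧ Language.Structure.RelMap r v})

/-- the function symbols `1`, `+`, `x·2^y` -/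
inductive Fn : ℕ → Type
  | one : Fn 0
  | add : Fn 2
  | shift : Fn 2

/-- the relation symbol `≤` -/
inductive Rl : ℕ → Type
  | le : Rl 2

/-- the language of `⟨ℕ_{>0}; +, x·2^y, ≤, 1⟩` -/
def Lt : FirstOrder.Language.{0, 0} := ⟨Fn, Rl⟩

/-- the structure `⟨ℕ_{>0}; +, x·2^y, ≤, 1⟩` -/
instance strN : Lt.Structure ℕ+ where
  funMap := fun {n} f => match n, f with
    | _, Fn.one => fun _ => 1
    | _, Fn.add => fun v => v 0 + v 1
    | _, Fn.shift => fun v => v 0 * 2 ^ (v 1 : ℕ)
  RelMap := fun {n} r => match n, r with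
    | _, Rl.le => fun v => v 0 ≤ v 1

/-! ### the growth lemma -/

theorem conv_length {A : Type} {k : ℕ} (w : Fin k → List A) :
    (conv w).length = Finset.univ.sup fun j => (w j).length := by
  simp [conv]

theorem conv_get {A : Type} {k : ℕ} (w : Fin k → List A) (s : ℕ) :
    (conv w)[s]? = if s < Finset.univ.sup (fun j => (w j).length) then
      some (fun j => (w j)[s]?) else none := by
  unfold conv
  rw [List.getElem?_map]
  split_ifs with h
  · rw [List.getElem?_range h]
    rfl
  · rw [List.getElem?_eq_none (by rw [List.length_range]; exact not_lt.1 h)]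
    rfl

theorem conv_inj {A : Type} {k : ℕ} (w₁ w₂ : Fin k → List A) (h : conv w₁ = conv w₂) :
    w₁ = w₂ := by
  funext t
  apply List.ext_getElem?
  intro s
  have key : ∀ w₀ : Fin k → List A, (w₀ t)[s]? = ((conv w₀)[s]?).bind fun g => g t := by
    intro w₀
    rw [conv_get]
    split_ifs with hs
    · rfl
    · have : (w₀ t).length ≤ s :=
        (Finset.le_sup (f := fun j => (w₀ j).length) (Finset.mem_univ t)).trans (not_lt.1 hs)
      rw [List.getElem?_eq_none this]
      rfl
  rw [key, key, h]

theorem getElem?_cut {B : Type} (l : List B) (i j p : ℕ) (hij : i ≤ j) (hj : j ≤ l.length) :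
    (l.take i ++ l.drop j)[p]? = if p < i then l[p]? else l[p + (j - i)]? := by
  split_ifs with h
  · rw [List.getElem?_append_left (by rw [List.length_take]; omega), List.getElem?_take_of_lt h]
  · rw [List.getElem?_append_right (by rw [List.length_take]; omega), List.getElem?_drop,
      List.length_take]
    congr 1
    omega

theorem cut_conv {A : Type} {n : ℕ} (w : Fin (n + 1) → List A) (i j : ℕ)
    (hi : ∀ t : Fin n, (w t.castSucc).length ≤ i) (hij : i ≤ j)
    (hj : j ≤ (w (Fin.last n)).length) :
    conv (fun t => if t = Fin.last n then (w (Fin.last n)).take i ++ (w (Fin.last n)).drop j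
      else w t) = (conv w).take i ++ (conv w).drop j := by
  have hsup : (Finset.univ.sup fun t => (w t).length) = (w (Fin.last n)).length := by
    apply le_antisymm
    · refine Finset.sup_le fun t _ => ?_
      induction t using Fin.lastCases with
      | last => exact le_rfl
      | cast t => exact (hi t).trans (hij.trans hj)
    · exact Finset.le_sup (f := fun t => (w t).length) (Finset.mem_univ (Fin.last n))
  have hlen' : ((w (Fin.last n)).take i ++ (w (Fin.last n)).drop j).length =
      (w (Fin.last n)).length - (j - i) := by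
    rw [List.length_append, List.length_take, List.length_drop]
    omega
  have hsup' : (Finset.univ.sup fun t => (if t = Fin.last n then (w (Fin.last n)).take i ++
      (w (Fin.last n)).drop j else w t).length) = (w (Fin.last n)).length - (j - i) := by
    apply le_antisymm
    · refine Finset.sup_le fun t _ => ?_
      induction t using Fin.lastCases with
      | last => rw [if_pos rfl, hlen']
      | cast t =>
        rw [if_neg (Fin.castSucc_lt_last t).ne]
        have := hi t
        omega
    · rw [← hlen']
      have := Finset.le_sup (f := fun t => (if t = Fin.last n then (w (Fin.last n)).take i ++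
        (w (Fin.last n)).drop j else w t).length) (Finset.mem_univ (Fin.last n))
      simpa using this
  apply List.ext_getElem?
  intro p
  rw [conv_get, hsup', getElem?_cut _ _ _ _ hij (by rw [conv_length, hsup]; exact hj)]
  by_cases hp : p < i
  · rw [if_pos hp, if_pos (by omega), conv_get, hsup, if_pos (by omega)]
    congr 1
    funext t
    split_ifs with ht
    · rw [getElem?_cut _ _ _ _ hij hj, if_pos hp, ht]
    · rfl
  · rw [if_neg hp, conv_get, hsup]
    by_cases hp' : p < (w (Fin.last n)).length - (j - i)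
    · rw [if_pos hp', if_pos (by omega)]
      congr 1
      funext t
      split_ifs with ht
      · rw [getElem?_cut _ _ _ _ hij hj, if_neg hp, ht]
      · have hcast : ∃ t' : Fin n, t = t'.castSucc := by
          induction t using Fin.lastCases with
          | last => exact absurd rfl ht
          | cast t => exact ⟨t, rfl⟩
        obtain ⟨t', rfl⟩ := hcast
        have := hi t'
        rw [List.getElem?_eq_none (by omega), List.getElem?_eq_none (by omega)]
    · rw [if_neg hp', if_neg (by omega)]

/-- The growth lemma for functions with automatic graphs. -/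
theorem growth {A : Type} {n : ℕ} (R : Set (Fin (n + 1) → List A)) (hR : AutoRel R)
    (hfun : ∀ w ∈ R, ∀ w' ∈ R, (∀ t : Fin n, w t.castSucc = w' t.castSucc) → w = w') :
    ∃ C : ℕ, ∀ w ∈ R, ∀ m, (∀ t : Fin n, (w t.castSucc).length ≤ m) →
      (w (Fin.last n)).length ≤ m + C := by
  obtain ⟨σ, _, M, hM⟩ := hR
  refine ⟨Fintype.card σ, fun w hw m hm => ?_⟩
  by_contra hlt
  push Not at hlt
  -- two positions with the same state
  obtain ⟨p, q, hpq, heq⟩ := Fintype.exists_ne_map_eq_of_card_lt
    (fun p : Fin (Fintype.card σ + 1) => M.eval ((conv w).take (m + p))) (by simp)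
  wlog hlt' : p < q generalizing p q
  · exact this q p hpq.symm heq.symm (lt_of_le_of_ne (not_lt.1 hlt') hpq.symm)
  have hpq' : p.1 < q.1 := hlt'
  have hq : q.1 ≤ Fintype.card σ := Nat.lt_succ_iff.1 q.2
  have hacc : (conv w) ∈ M.accepts := by
    rw [hM]
    exact ⟨w, hw, rfl⟩
  set i := m + p.1 with hi
  set j := m + q.1 with hj
  have hacc' : (conv w).take i ++ (conv w).drop j ∈ M.accepts := by
    rw [DFA.mem_accepts, DFA.eval, DFA.evalFrom_of_append]
    have h1 : M.evalFrom M.start ((conv w).take i) = M.evalFrom M.start ((conv w).take j) := heq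
    rw [h1, ← DFA.evalFrom_of_append, List.take_append_drop]
    exact hacc
  rw [← cut_conv w i j (fun t => (hm t).trans (by omega)) (by omega) (by omega), hM] at hacc'
  obtain ⟨w', hw', he⟩ := hacc'
  have h3 := conv_inj _ _ he
  have h4 : w' = w := by
    refine hfun w' hw' w hw fun t => ?_
    rw [h3]
    simp [(Fin.castSucc_lt_last t).ne]
  rw [h4] at h3
  have h5 := congrArg List.length (congrFun h3 (Fin.last n))
  simp only [if_true, List.length_append, List.length_take, List.length_drop] at h5
  omega

/-! ### counting -/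

/-- words of length at most `m` -/
theorem card_words {A : Type} [Finite A] (m : ℕ) (S : Finset (List A))
    (hS : ∀ w ∈ S, w.length ≤ m) : S.card ≤ (Nat.card A + 1) ^ m := by
  classical
  have : Fintype A := Fintype.ofFinite A
  have hinj : Set.InjOn (fun (w : List A) (i : Fin m) => w[i.1]?) S := by
    intro w hw w' hw' h
    apply List.ext_getElem?
    intro s
    by_cases hs : s < m
    · exact congrFun h ⟨s, hs⟩
    · rw [List.getElem?_eq_none ((hS w hw).trans (not_lt.1 hs)),
        List.getElem?_eq_none ((hS w' hw').trans (not_lt.1 hs))]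
  calc S.card = (S.image fun (w : List A) (i : Fin m) => w[i.1]?).card :=
        (Finset.card_image_of_injOn hinj).symm
    _ ≤ (Finset.univ : Finset (Fin m → Option A)).card := Finset.card_le_card (Finset.subset_univ _)
    _ = (Nat.card A + 1) ^ m := by
      rw [Finset.card_univ, Fintype.card_fun, Fintype.card_option, Fintype.card_fin,
        Nat.card_eq_fintype_card]

theorem no_bound (a c d : ℕ) : ¬ ∀ j : ℕ, 2 ^ 2 ^ j ≤ (a + 1) ^ (c + j * d) := by
  intro h
  have h1 : ∀ j : ℕ, 2 ^ j ≤ a * (c + j * d) := by
    intro j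
    have h2 : (a + 1) ^ (c + j * d) ≤ 2 ^ (a * (c + j * d)) := by
      rw [pow_mul]
      exact Nat.pow_le_pow_left (Nat.lt_two_pow_self (n := a)) _
    exact (Nat.pow_le_pow_iff_right (by norm_num)).1 ((h j).trans h2)
  set B := a * c + a * d with hB
  have h3 : ∀ i : ℕ, 2 ^ i ≤ 2 * B := by
    intro i
    have h4 := h1 (2 * i)
    have h5 : i + 1 ≤ 2 ^ i := Nat.lt_two_pow_self
    have h6 : a * (c + 2 * i * d) ≤ B * (2 * 2 ^ i) := by
      calc a * (c + 2 * i * d) = a * c * 1 + a * d * (2 * i) := by ring
        _ ≤ a * c * (2 * 2 ^ i) + a * d * (2 * 2 ^ i) := by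
          apply Nat.add_le_add <;> apply Nat.mul_le_mul_left <;> omega
        _ = B * (2 * 2 ^ i) := by rw [hB]; ring
    have h7 : 2 ^ i * 2 ^ i ≤ 2 * B * 2 ^ i := by
      calc 2 ^ i * 2 ^ i = 2 ^ (2 * i) := by rw [two_mul, pow_add]
        _ ≤ B * (2 * 2 ^ i) := h4.trans h6
        _ = 2 * B * 2 ^ i := by ring
    exact Nat.le_of_mul_le_mul_right h7 (by positivity)
  have h8 := h3 (2 * B)
  have h9 : 2 * B < 2 ^ (2 * B) := Nat.lt_two_pow_self
  omega

theorem shift_inj {x y x' y' : ℕ} (hx : Odd x) (hx' : Odd x') (h : x * 2 ^ y = x' * 2 ^ y') :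
    x = x' ∧ y = y' := by
  have key : ∀ {x y x' y' : ℕ}, Odd x → Odd x' → x * 2 ^ y = x' * 2 ^ y' → y ≤ y' := by
    intro x y x' y' hx hx' h
    by_contra hlt
    obtain ⟨d, rfl⟩ := Nat.exists_eq_add_of_lt (not_le.1 hlt)
    have h2 : x * 2 ^ (d + 1) * 2 ^ y' = x' * 2 ^ y' := by
      rw [← h]
      ring
    have h3 := Nat.eq_of_mul_eq_mul_right (by positivity) h2
    rw [pow_succ, ← mul_assoc] at h3
    rw [← h3, Nat.odd_iff] at hx'
    omega
  have hy : y = y' := le_antisymm (key hx hx' h) (key hx' hx h.symm)
  subst hy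
  exact ⟨Nat.eq_of_mul_eq_mul_right (by positivity) h, rfl⟩

/-- There is no injective coding of the positive integers by words over a finite alphabet for which
the lengths grow by at most a constant under `x·2^y` and `+`. -/
theorem no_coding {A : Type} [Finite A] (ν : ℕ+ → List A) (hν : Function.Injective ν) (C : ℕ)
    (hshift : ∀ x y m, (ν x).length ≤ m → (ν y).length ≤ m →
      (ν (x * 2 ^ (y : ℕ))).length ≤ m + C)
    (hadd : ∀ x y m, (ν x).length ≤ m → (ν y).length ≤ m → (ν (x + y)).length ≤ m + C) :
    False := by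
  classical
  set m0 := max (ν 1).length (ν 3).length with hm0
  -- finite sets of odd numbers
  have hfin : ∀ m, {x : ℕ+ | Odd (x : ℕ) ∧ (ν x).length ≤ m}.Finite := by
    intro m
    have : Fintype A := Fintype.ofFinite A
    refine Set.Finite.of_finite_image (f := fun x => fun i : Fin m => (ν x)[i.1]?)
      (Set.toFinite _) ?_
    rintro x ⟨-, hx⟩ y ⟨-, hy⟩ h
    apply hν
    apply List.ext_getElem?
    intro s
    by_cases hs : s < m
    · exact congrFun h ⟨s, hs⟩
    · rw [List.getElem?_eq_none (hx.trans (not_lt.1 hs)),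
        List.getElem?_eq_none (hy.trans (not_lt.1 hs))]
  let O : ℕ → Finset ℕ+ := fun j => (hfin (m0 + j * (2 * C))).toFinset
  have hO : ∀ j x, x ∈ O j ↔ Odd (x : ℕ) ∧ (ν x).length ≤ m0 + j * (2 * C) := by
    intro j x
    simp [O]
  have hstep : ∀ j, (O j).card * (O j).card ≤ (O (j + 1)).card := by
    intro j
    rw [← Finset.card_product]
    refine Finset.card_le_card_of_injOn (fun p => p.1 * 2 ^ (p.2 : ℕ) + 1) ?_ ?_
    · rintro ⟨x, y⟩ hxy
      rw [Finset.mem_coe, Finset.mem_product, hO, hO] at hxy
      obtain ⟨⟨hx1, hx2⟩, hy1, hy2⟩ := hxy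
      rw [Finset.mem_coe, hO]
      constructor
      · have : (2 : ℕ) ∣ 2 ^ (y : ℕ) := dvd_pow_self 2 y.pos.ne'
        obtain ⟨c, hc⟩ := this
        simp only [PNat.add_coe, PNat.mul_coe, PNat.pow_coe, PNat.val_ofNat]
        rw [hc]
        exact ⟨x * c, by ring⟩
      · have h1 := hshift x y _ hx2 hy2
        have h0 : (ν 1).length ≤ m0 := le_max_left _ _
        have h2 := hadd (x * 2 ^ (y : ℕ)) 1 (m0 + j * (2 * C) + C) h1 (by omega)
        calc _ ≤ m0 + j * (2 * C) + C + C := h2
          _ = m0 + (j + 1) * (2 * C) := by ring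
    · rintro ⟨x, y⟩ hxy ⟨x', y'⟩ hxy' h
      rw [Finset.mem_coe, Finset.mem_product, hO, hO] at hxy hxy'
      have h1 : ((x * 2 ^ (y : ℕ) + 1 : ℕ+) : ℕ) = ((x' * 2 ^ (y' : ℕ) + 1 : ℕ+) : ℕ) :=
        congrArg _ h
      simp only [PNat.add_coe, PNat.mul_coe, PNat.pow_coe, PNat.val_ofNat] at h1
      obtain ⟨h2, h3⟩ := shift_inj hxy.1.1 hxy'.1.1 (Nat.add_right_cancel h1)
      exact Prod.ext (PNat.coe_injective h2) (PNat.coe_injective h3)
  have hcard : ∀ j, 2 ^ 2 ^ j ≤ (O j).card := by
    intro j
    induction j with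
    | zero =>
      have h1 : ({1, 3} : Finset ℕ+) ⊆ O 0 := by
        intro x hx
        rw [Finset.mem_insert, Finset.mem_singleton] at hx
        rw [hO]
        rcases hx with rfl | rfl
        · exact ⟨by decide, by simp [hm0]⟩
        · exact ⟨by decide, by simp [hm0]⟩
      calc 2 ^ 2 ^ 0 = ({1, 3} : Finset ℕ+).card := by decide
        _ ≤ _ := Finset.card_le_card h1
    | succ j ih =>
      calc 2 ^ 2 ^ (j + 1) = 2 ^ 2 ^ j * 2 ^ 2 ^ j := by rw [pow_succ, mul_two, pow_add]
        _ ≤ (O j).card * (O j).card := Nat.mul_le_mul ih ih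
        _ ≤ _ := hstep j
  apply no_bound (Nat.card A) m0 (2 * C)
  intro j
  refine (hcard j).trans ?_
  rw [← Finset.card_image_of_injective _ hν]
  apply card_words
  intro w hw
  obtain ⟨x, hx, rfl⟩ := Finset.mem_image.1 hw
  exact ((hO j x).1 hx).2

/-- The structure `⟨ℕ_{>0}; +, x·2^y, ≤, 1⟩` is not automatic. -/
theorem result : ¬ IsAutomatic Lt ℕ+ := by
  rintro ⟨A, _, D, -, _, ⟨e⟩, hfun, -⟩
  have key : ∀ (f : Lt.Functions 2), ∃ C : ℕ, ∀ (x y : ℕ+) (m : ℕ), ((e x).1).length ≤ m →
      ((e y).1).length ≤ m → ((e (Language.Structure.funMap f ![x, y])).1).length ≤ m + C := by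
    intro f
    obtain ⟨C, hC⟩ := growth _ (hfun 2 f) (by
      rintro w ⟨v, hv, hv'⟩ w' ⟨u, hu, hu'⟩ h
      have : v = u := by
        funext i
        apply Subtype.ext
        rw [← hv, ← hu, h]
      subst this
      funext t
      induction t using Fin.lastCases with
      | last => rw [hv', hu']
      | cast t => exact h t)
    refine ⟨C, fun x y m hx hy => ?_⟩
    have h1 := hC (Fin.snoc (fun i => (e (![x, y] i)).1)
      ((e (Language.Structure.funMap f ![x, y])).1)) ⟨fun i => e (![x, y] i), fun i => by simp, by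
        rw [Fin.snoc_last]
        congr 1
        exact e.map_fun f ![x, y]⟩ m (by
          intro t
          rw [Fin.snoc_castSucc]
          fin_cases t
          · exact hx
          · exact hy)
    rwa [Fin.snoc_last] at h1
  obtain ⟨C1, h1⟩ := key Fn.shift
  obtain ⟨C2, h2⟩ := key Fn.add
  refine no_coding (fun x => (e x).1) (Subtype.val_injective.comp e.injective) (C1 + C2) ?_ ?_
  · intro x y m hx hy
    exact (h1 x y m hx hy).trans (by omega)
  · intro x y m hx hy
    exact (h2 x y m hx hy).trans (by omega)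

end Pool.Agent.Results.MP_34afd1_lc.NotAutomatic
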